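import Mathlib
import Pool.Agent.U514.TG.Stm2

/-!
Project TG, package PEXP: the exponent `8 / 3`.
-/

set_option autoImplicit false

namespace Pool.Agent.U103.TG.PEXP

open Pool.Agent.U514.TG

theorem t_PEXP : S_PEXP := by
  intro K ε hε hε1
  have hl2 : 0 < Real.log 2 := Real.log_pos (by norm_num)
  set C : ℝ := 1 / (ε * Real.log 2) + 1 with hC
  have hCp : 0 < C := by positivity
  set D : ℝ := (K + 1) * C with hD
  have hDp : 0 < D := by positivity
  refine ⟨(D ^ (1 / (3 + ε)))⁻¹, by positivity, fun m s h => ?_⟩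
  rcases Nat.eq_zero_or_pos m with rfl | hm
  · rw [Nat.cast_zero, Real.zero_rpow (by linarith), mul_zero]
    positivity
  rcases Nat.eq_zero_or_pos s with rfl | hs
  · exfalso
    have h0 : m ^ 8 ≤ 0 := by simpa using h
    have h1 : 0 < m ^ 8 := by positivity
    omega
  have hmR : (1 : ℝ) ≤ m := by exact_mod_cast hm
  have hsR : (1 : ℝ) ≤ s := by exact_mod_cast hs
  have hs0 : (0 : ℝ) < s := by linarith
  have h1 : ((Nat.log 2 s : ℕ) : ℝ) + 1 ≤ C * (s : ℝ) ^ ε := by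
    have e1 : ((Nat.log 2 s : ℕ) : ℝ) ≤ Real.log s / Real.log 2 := by
      rw [le_div_iff₀ hl2]
      have e2 : (2 : ℝ) ^ (Nat.log 2 s) ≤ s := by
        exact_mod_cast Nat.pow_log_le_self 2 hs.ne'
      have e3 := Real.log_le_log (by positivity) e2
      rwa [Real.log_pow] at e3
    have e2 : Real.log s ≤ (s : ℝ) ^ ε / ε := Real.log_le_rpow_div hs0.le hε
    have e3 : (1 : ℝ) ≤ (s : ℝ) ^ ε := Real.one_le_rpow hsR hε.le
    have e4 : Real.log s / Real.log 2 ≤ ((s : ℝ) ^ ε / ε) / Real.log 2 :=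
      div_le_div_of_nonneg_right e2 hl2.le
    have e5 : ((s : ℝ) ^ ε / ε) / Real.log 2 = 1 / (ε * Real.log 2) * (s : ℝ) ^ ε := by
      field_simp
    rw [hC, add_mul, one_mul]
    linarith
  have h2 : (m : ℝ) ^ (8 : ℕ) ≤ D * (s : ℝ) ^ (3 + ε) := by
    have h' : (m : ℝ) ^ (8 : ℕ) ≤ (K : ℝ) * ((((Nat.log 2 s : ℕ) : ℝ) + 1) * (s : ℝ) ^ (3 : ℕ)) := by
      exact_mod_cast h
    have e1 : (((Nat.log 2 s : ℕ) : ℝ) + 1) * (s : ℝ) ^ (3 : ℕ) ≤
        (C * (s : ℝ) ^ ε) * (s : ℝ) ^ (3 : ℕ) := mul_le_mul_of_nonneg_right h1 (by positivity)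
    have e2 : (K : ℝ) * ((((Nat.log 2 s : ℕ) : ℝ) + 1) * (s : ℝ) ^ (3 : ℕ)) ≤
        (K + 1) * ((C * (s : ℝ) ^ ε) * (s : ℝ) ^ (3 : ℕ)) :=
      mul_le_mul (by linarith) e1 (by positivity) (by positivity)
    refine (h'.trans e2).trans (le_of_eq ?_)
    rw [Real.rpow_add hs0, show (3 : ℝ) = ((3 : ℕ) : ℝ) by norm_num, Real.rpow_natCast, hD]
    ring
  have h3 : (m : ℝ) ^ (8 / 3 - ε) ≤ D ^ (1 / (3 + ε)) * s := by
    calc (m : ℝ) ^ (8 / 3 - ε) ≤ (m : ℝ) ^ (((8 : ℕ) : ℝ) * (1 / (3 + ε))) := by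
          refine Real.rpow_le_rpow_of_exponent_le hmR ?_
          rw [mul_one_div, le_div_iff₀ (by linarith)]
          push_cast
          nlinarith
      _ = ((m : ℝ) ^ (8 : ℕ)) ^ (1 / (3 + ε)) := by
          rw [Real.rpow_mul (by linarith), Real.rpow_natCast]
      _ ≤ (D * (s : ℝ) ^ (3 + ε)) ^ (1 / (3 + ε)) :=
          Real.rpow_le_rpow (by positivity) h2 (by positivity)
      _ = D ^ (1 / (3 + ε)) * s := by
          rw [Real.mul_rpow hDp.le (by positivity), ← Real.rpow_mul hs0.le,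
            mul_one_div_cancel (by linarith), Real.rpow_one]
  rw [inv_mul_le_iff₀ (by positivity)]
  exact h3
end Pool.Agent.U103.TG.PEXP
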